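import Pool.Agent.helper80.EN.Spec

/-!
Row FGL (Malcev): finitely generated linear groups are residually `GL_n` over finite fields.
The first three lemmas are those of `Pool/Agent/helper44/Linear.lean`.
-/

set_option autoImplicit false

namespace Pool.Agent.helper80.EN

universe u

theorem fgl_isJacobsonRing_int : IsJacobsonRing ℤ := by
  rw [isJacobsonRing_iff_prime_eq]
  intro P hP
  by_cases h : P = ⊥
  · subst h
    rw [eq_bot_iff]
    intro x hx
    by_contra hx0
    have hx0' : x ≠ 0 := hx0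
    obtain ⟨p, hp1, hp2⟩ := Nat.exists_infinite_primes (x.natAbs + 1)
    have hmax : (Ideal.span {(p : ℤ)}).IsMaximal :=
      PrincipalIdealRing.isMaximal_of_irreducible (Nat.prime_iff_prime_int.mp hp2).irreducible
    have hxm : x ∈ Ideal.span {(p : ℤ)} := by
      rw [Ideal.jacobson, Ideal.mem_sInf] at hx
      exact hx ⟨bot_le, hmax⟩
    rw [Ideal.mem_span_singleton] at hxm
    have h1 := Int.natAbs_dvd_natAbs.mpr hxm
    have h2 := Nat.le_of_dvd (Int.natAbs_pos.mpr hx0') h1
    simp at h2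
    omega
  · have hmax : P.IsMaximal := Ring.DimensionLEOne.maximalOfPrime h hP
    exact Ideal.jacobson_eq_self_of_isMaximal

theorem fgl_finite_field (S : Type*) [Field S] [Algebra.FiniteType ℤ S] : Finite S := by
  have : IsJacobsonRing ℤ := fgl_isJacobsonRing_int
  have hfin : Module.Finite ℤ S := finite_of_finite_type_of_isJacobsonRing ℤ S
  have hint : Algebra.IsIntegral ℤ S := inferInstance
  by_cases h0 : CharZero S
  · exfalso
    exact Int.not_isField
      (isField_of_isIntegral_of_isField (FaithfulSMul.algebraMap_injective ℤ S)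
        (Field.toIsField S))
  · obtain ⟨p, hp⟩ := CharP.exists S
    have hp0 : p ≠ 0 := by
      rintro rfl
      exact h0 (CharP.charP_to_charZero S)
    have hfg : AddGroup.FG S := Module.Finite.iff_addGroup_fg.mp hfin
    apply AddCommGroup.finite_of_fg_isAddTorsion
    intro x
    rw [isOfFinAddOrder_iff_nsmul_eq_zero]
    refine ⟨p, Nat.pos_of_ne_zero hp0, ?_⟩
    rw [nsmul_eq_mul, CharP.cast_eq_zero, zero_mul]

theorem fgl_finite_surj (A : Type*) [CommRing A] [Algebra.FiniteType ℤ A]
    (S : Type*) [Field S] (f : A →+* S) (hf : Function.Surjective f) : Finite S := by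
  have h1 : Algebra.FiniteType ℤ A := inferInstance
  have h2 : Algebra.FiniteType ℤ S := h1.of_surjective f.toIntAlgHom hf
  exact fgl_finite_field S

theorem fgl_finite_quotient (A : Type*) [CommRing A] [Algebra.FiniteType ℤ A]
    (m : Ideal A) [m.IsMaximal] : Finite (A ⧸ m) :=
  @fgl_finite_surj A _ _ (A ⧸ m) (Ideal.Quotient.field m) (Ideal.Quotient.mk m)
    Ideal.Quotient.mk_surjective

/-- The entries of the elements of `B` lie in a subring as soon as those of the generators do. -/
theorem fgl_entries {F : Type*} [Field F] {n : ℕ} (A : Subring F)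
    (S : Set (GL (Fin n) F))
    (hS : ∀ s ∈ S, ∀ i j, (s : Matrix (Fin n) (Fin n) F) i j ∈ A ∧
      ((s⁻¹ : GL (Fin n) F) : Matrix (Fin n) (Fin n) F) i j ∈ A) :
    ∀ b : GL (Fin n) F, b ∈ Subgroup.closure S → ∀ i j, (b : Matrix (Fin n) (Fin n) F) i j ∈ A ∧
      ((b⁻¹ : GL (Fin n) F) : Matrix (Fin n) (Fin n) F) i j ∈ A := by
  intro b hb
  refine Subgroup.closure_induction (p := fun (b : GL (Fin n) F) _ => ∀ i j,
    (b : Matrix (Fin n) (Fin n) F) i j ∈ A ∧
      ((b⁻¹ : GL (Fin n) F) : Matrix (Fin n) (Fin n) F) i j ∈ A) ?_ ?_ ?_ ?_ hb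
  · intro x hx
    exact hS x hx
  · intro i j
    have h1 : ((1 : GL (Fin n) F) : Matrix (Fin n) (Fin n) F) i j ∈ A := by
      rw [Units.val_one, Matrix.one_apply]
      split_ifs
      · exact A.one_mem
      · exact A.zero_mem
    exact ⟨h1, by rw [inv_one]; exact h1⟩
  · intro x y _ _ hx hy i j
    constructor
    · rw [Units.val_mul, Matrix.mul_apply]
      exact A.sum_mem fun k _ => A.mul_mem (hx i k).1 (hy k j).1
    · rw [mul_inv_rev, Units.val_mul, Matrix.mul_apply]
      exact A.sum_mem fun k _ => A.mul_mem (hy i k).2 (hx k j).2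
  · intro x _ hx i j
    exact ⟨(hx i j).2, by rw [inv_inv]; exact (hx i j).1⟩

theorem FGL : FGL_stmt.{u} := by
  intro F _ n B hB b hb
  classical
  obtain ⟨S, hS⟩ := hB
  -- a nonzero entry of `b - 1`
  obtain ⟨i0, j0, hr⟩ : ∃ i j, ((b : GL (Fin n) F) : Matrix (Fin n) (Fin n) F) i j -
      (1 : Matrix (Fin n) (Fin n) F) i j ≠ 0 := by
    by_contra hcon
    push Not at hcon
    apply hb
    apply Subtype.ext
    apply Units.ext
    ext i j
    have := hcon i j
    rw [sub_eq_zero] at this
    exact this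
  set r : F := ((b : GL (Fin n) F) : Matrix (Fin n) (Fin n) F) i0 j0 -
      (1 : Matrix (Fin n) (Fin n) F) i0 j0 with hrdef
  -- the finite set of generators of the ring
  let E : Set F := (⋃ s ∈ S, ⋃ i : Fin n, ⋃ j : Fin n,
    {(s : Matrix (Fin n) (Fin n) F) i j, ((s⁻¹ : GL (Fin n) F) : Matrix (Fin n) (Fin n) F) i j}) ∪
      {r⁻¹}
  have hE : E.Finite := by
    refine Set.Finite.union ?_ (Set.finite_singleton _)
    refine Set.Finite.biUnion S.finite_toSet fun s _ => ?_
    refine Set.finite_iUnion fun i => Set.finite_iUnion fun j => ?_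
    exact (Set.finite_singleton _).insert _
  let A : Subalgebra ℤ F := Algebra.adjoin ℤ E
  have hA : Algebra.FiniteType ℤ A := by
    rw [← Subalgebra.fg_iff_finiteType]
    exact ⟨hE.toFinset, by rw [Set.Finite.coe_toFinset]⟩
  have hEA : E ⊆ A := Algebra.subset_adjoin
  have hent := fgl_entries A.toSubring (S : Set (GL (Fin n) F)) (by
    intro s hs i j
    constructor
    · refine hEA (Or.inl ?_)
      simp only [Set.mem_iUnion]
      exact ⟨s, hs, i, j, Or.inl rfl⟩
    · refine hEA (Or.inl ?_)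
      simp only [Set.mem_iUnion]
      exact ⟨s, hs, i, j, Or.inr rfl⟩)
  rw [hS] at hent
  -- entries of elements of `B`
  have hB' : ∀ x : B, ∀ i j, ((x : GL (Fin n) F) : Matrix (Fin n) (Fin n) F) i j ∈ A :=
    fun x i j => (hent x x.2 i j).1
  have h1A : ∀ i j, (1 : Matrix (Fin n) (Fin n) F) i j ∈ A := by
    intro i j
    rw [Matrix.one_apply]
    split_ifs
    · exact A.one_mem
    · exact A.zero_mem
  have hrA : r ∈ A := A.sub_mem (hB' b i0 j0) (h1A i0 j0)
  have hriA : r⁻¹ ∈ A := hEA (Or.inr rfl)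
  -- the representation over `A`
  let φ : B →* Matrix (Fin n) (Fin n) A :=
    { toFun := fun x => Matrix.of fun i j => ⟨((x : GL (Fin n) F) : Matrix (Fin n) (Fin n) F) i j,
        hB' x i j⟩
      map_one' := by
        ext i j
        simp only [Subgroup.coe_one, Units.val_one, Matrix.of_apply]
        by_cases hij : i = j
        · subst hij; simp
        · simp [hij]
      map_mul' := by
        intro x y
        ext i j
        simp only [Subgroup.coe_mul, Units.val_mul, Matrix.of_apply, Matrix.mul_apply,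
          AddSubmonoidClass.coe_finsetSum, MulMemClass.mk_mul_mk] }
  obtain ⟨m, hm⟩ := Ideal.exists_maximal A
  let _ : Field (A ⧸ m) := Ideal.Quotient.field m
  have hfin : Finite (A ⧸ m) := fgl_finite_quotient A m
  let ψ : B →* Matrix (Fin n) (Fin n) (A ⧸ m) :=
    ((Ideal.Quotient.mk m).mapMatrix : Matrix (Fin n) (Fin n) A →+*
      Matrix (Fin n) (Fin n) (A ⧸ m)).toMonoidHom.comp φ
  refine ⟨A ⧸ m, inferInstance, hfin, ψ.toHomUnits, ?_⟩
  intro hcon
  have h1 : ψ b = 1 := by
    have := congrArg (fun u : (Matrix (Fin n) (Fin n) (A ⧸ m))ˣ =>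
      (u : Matrix (Fin n) (Fin n) (A ⧸ m))) hcon
    exact this
  have h2 := congrFun (congrFun h1 i0) j0
  have h3 : Ideal.Quotient.mk m ⟨((b : GL (Fin n) F) : Matrix (Fin n) (Fin n) F) i0 j0,
      hB' b i0 j0⟩ = (1 : Matrix (Fin n) (Fin n) (A ⧸ m)) i0 j0 := h2
  have h4 : Ideal.Quotient.mk m (⟨r, hrA⟩ : A) = 0 := by
    have h5 : (⟨r, hrA⟩ : A) = ⟨((b : GL (Fin n) F) : Matrix (Fin n) (Fin n) F) i0 j0,
      hB' b i0 j0⟩ - (1 : Matrix (Fin n) (Fin n) A) i0 j0 := by
      apply Subtype.ext
      change r = _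
      rw [hrdef, AddSubgroupClass.coe_sub]
      congr 1
      by_cases hij : i0 = j0
      · subst hij; simp
      · simp [hij]
    rw [h5, map_sub, h3, sub_eq_zero]
    by_cases hij : i0 = j0
    · subst hij; simp
    · simp [hij]
  have h6 : (⟨r, hrA⟩ : A) ∈ m := Ideal.Quotient.eq_zero_iff_mem.mp h4
  have h7 : (1 : A) ∈ m := by
    have h8 : (⟨r⁻¹, hriA⟩ : A) * ⟨r, hrA⟩ = 1 := by
      apply Subtype.ext
      change r⁻¹ * r = 1
      exact inv_mul_cancel₀ hr
    rw [← h8]
    exact m.mul_mem_left _ h6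
  exact hm.ne_top ((Ideal.eq_top_iff_one m).mpr h7)

end Pool.Agent.helper80.EN
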